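import Pool.Agent.V11280.CM.Rel
import Pool.Agent.V11280.CM.Defs

/-!
# Sparsity of the CM points of bounded size for variations of Hodge structure with any monodromy

A variation of Hodge structure over a nonempty connected open set `U` of the affine space with
coordinates `x_i`, `i ∈ X`, whose Gauss-Manin connection is algebraic, is given (`Family X ι`) by an
algebraic connection `c ∂_i Y = Y B_i` with an invertible matrix `Y` of analytic solutions (the period
matrix: the rows correspond to a locally constant basis of the integral local system, the columns to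
an algebraic basis of the vector bundle which is adapted to the Hodge filtration), and by the sets
`C j` of the indices of the columns which span the steps `Fil Y(x) (C j)` of the Hodge filtration at
`x`. Nothing is assumed on the monodromy, or on the algebraic functions in the field generated by the
periods. `galois` is the group of the constant matrices `g` such that all polynomial relations over
`ℂ[x]` between the entries of `Y` are relations between the entries of `g Y` (the Zariski closure of
the monodromy group for Gauss-Manin connections), `identityComponent` is the intersection of its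
closed subgroups of finite index.

At a CM point `s` there is an integral matrix `M` with distinct eigenvalues which preserves the Hodge
filtration of the fibre.

**Theorem.** There is `ω → ∞` such that for all large `T`, all number fields `K` of degree at most
`ω T`, embedded in `ℂ`: the points `s` with coordinates in `K` of height at most `T` (in the `ω T`-th
compact subset of `U`) such that there is a matrix `M` over the integers of `K`, all conjugates of
which are at most `T ^ ω T`, which preserves the Hodge filtration at `s`, but not its transforms under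
all elements of the identity component, lie on at most `T ^ (1 / ω T)` hypersurfaces of degree at
most `T ^ (1 / ω T)`; they are at most `T ^ (1 / ω T) N ^ (d - 1)` in number, where `d` is the
dimension of the base and `N` is the number of the elements of `K` of height at most `T`. If some
subgroup `Γ` of the identity component (a subgroup of finite index of the monodromy group) is infinite
and has finite stabilizers of the filtrations at all points (automatic for infinite monodromy groups
of polarized variations, as these are discrete and the stabilizers of polarized Hodge structures are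
compact), all the points `s` with such a matrix `M` with distinct eigenvalues (the CM points of
size at most `T ^ ω T`) belong to this set.
-/

set_option autoImplicit false

open Filter NumberField Pool.Agent.V11280.CM.Pub

namespace Pool.Agent.Results.MP_2794d1_ag.CMAllFamilies

/-- `S` is covered by at most `m` hypersurfaces of degree at most `D` -/
def CoveredBy {X : Type} (D m : ℕ) (S : Set (X → ℂ)) : Prop :=
  ∃ Φ : Finset (MvPolynomial X ℂ), Φ.card ≤ m ∧ (∀ P ∈ Φ, P ≠ 0 ∧ P.totalDegree ≤ D) ∧
    ∀ x ∈ S, ∃ P ∈ Φ, MvPolynomial.eval x P = 0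

/-- the points of norm at most `k` at distance at least `1 / k` from the complement of `U` -/
def Inner {X : Type} [Fintype X] (U : Set (X → ℂ)) (k : ℕ) : Set (X → ℂ) :=
  {z | ‖z‖ ≤ k ∧ Metric.ball z (k : ℝ)⁻¹ ⊆ U}

variable {X ι : Type} [Fintype X] [DecidableEq X] [Fintype ι] [DecidableEq ι]

/-- The exceptional points `s` with coordinates in `K`: they are of height at most `T`, in the compact
set `Inner U k`, and there is a matrix `M` over the integers of `K`, all conjugates of the entries of
which are at most `T ^ k`, which preserves the filtration at `s`, but not its transform under some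
element of the identity component. -/
def Exceptional {J : Type} (F : Family X ι) (C : J → Set ι) (K : Type) [Field K] [NumberField K]
    (io : K →+* ℂ) (k : ℕ) (T : ℝ) : Set (X → K) :=
  {s | (∀ i, HeightLe K T (s i)) ∧ (fun i => io (s i)) ∈ Inner F.U k ∧ ∃ M : Matrix ι ι (𝓞 K),
    (∀ a b (φ : K →+* ℂ), ‖φ (M a b : K)‖ ≤ T ^ (k : ℝ)) ∧
    IsEndo C (F.Y fun i => io (s i)) (M.map fun x => io (x : K)) ∧
    ∃ g ∈ identityComponent F.galois,
      ¬ IsEndo C ((g : Matrix ι ι ℂ) * F.Y fun i => io (s i)) (M.map fun x => io (x : K))}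

/-- The points `s` with coordinates in `K` of height at most `T`, in the compact set `Inner U k`, such
that there is a matrix `M` over the integers of `K`, all conjugates of the entries of which are at
most `T ^ k`, with distinct eigenvalues, which preserves the filtration at `s`. -/
def CMPoints {J : Type} (F : Family X ι) (C : J → Set ι) (K : Type) [Field K] [NumberField K]
    (io : K →+* ℂ) (k : ℕ) (T : ℝ) : Set (X → K) :=
  {s | (∀ i, HeightLe K T (s i)) ∧ (fun i => io (s i)) ∈ Inner F.U k ∧ ∃ M : Matrix ι ι (𝓞 K),
    (∀ a b (φ : K →+* ℂ), ‖φ (M a b : K)‖ ≤ T ^ (k : ℝ)) ∧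
    (M.map fun x => io (x : K)).charpoly.Separable ∧
    IsEndo C (F.Y fun i => io (s i)) (M.map fun x => io (x : K))}

lemma exc_sub {J : Type} (F : Family X ι) (C : J → Set ι) {D₀ : ℕ} {A : ℝ}
    (hD₀ : ∀ (M : Matrix ι ι ℂ) (e c : ι) (y : ι × ι),
      (Pool.Agent.V11280.CM.rel M e c).degreeOf y ≤ D₀)
    (hA : ∀ (e c : ι) (m : ι × ι →₀ ℕ), ∑ a, ∑ b, |(Pool.Agent.V11280.CM.qc e c a b m : ℝ)| ≤ A)
    {T : ℝ} (hT : 1 ≤ T) (hTA : A ≤ T) {k k' : ℕ} (hk : 0 < k) (hkk : k + 1 ≤ k') (hD : D₀ ≤ k')
    (K : Type) [Field K] [NumberField K] (io : K →+* ℂ) :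
    Exceptional F C K io k T ⊆ Pool.Agent.V11273.PV.ExcB F.U (fun (v : ι × ι) x => F.Y x v.1 v.2)
      (Pool.Agent.V11273.PV.BadC F.U F.Y) K io k' (fun _ => 1) T := by
  rintro s ⟨h1, h2, M, hM, hend, g, hg, hne⟩
  have hsU : (fun i => io (s i)) ∈ F.U := Pool.Agent.Y890.MV.innerM_sub _ hk h2
  refine ⟨h1, Pool.Agent.V11273.PV.innerM_mono F.U hk (by omega) h2, ?_⟩
  have hex : ∃ e c, MvPolynomial.eval (fun v => F.Y (fun i => io (s i)) v.1 v.2)
      (Pool.Agent.V11280.CM.rel (M.map fun x => io (x : K)) e c) = 0 ∧
      MvPolynomial.eval (fun v => ((g : Matrix ι ι ℂ) * F.Y fun i => io (s i)) v.1 v.2)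
        (Pool.Agent.V11280.CM.rel (M.map fun x => io (x : K)) e c) ≠ 0 := by
    by_contra hcon
    push Not at hcon
    exact hne (Pool.Agent.V11280.CM.end_of_rel (F.det_ne _ hsU)
      ((Matrix.isUnit_iff_isUnit_det _).1 g.isUnit).ne_zero hend fun e c h0 => hcon e c h0)
  obtain ⟨e, c, h3, h4⟩ := hex
  exact ⟨_, Pool.Agent.V11280.CM.small_rel io hD₀ hA hkk hD hT hTA M hM e c, h3, g, hg, h4⟩

/-- **Theorem.** There is `ω → ∞` such that for all large `T`, all number fields `K` of degree at
most `ω T`, embedded in `ℂ`, the set `Exceptional F C K io (ω T) T` lies on at most `T ^ (1 / ω T)`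
hypersurfaces of degree at most `T ^ (1 / ω T)`, and has at most `T ^ (1 / ω T) * N ^ (d - 1)`
elements, `N` being the number of elements of `K` of height at most `T`; if there is a group `Γ` as
above it contains `CMPoints F C K io (ω T) T`. -/
theorem result [Nonempty X] {J : Type} [Finite J] (F : Family X ι) (C : J → Set ι) :
    ∃ (ω : ℝ → ℕ) (T₀ : ℝ), Tendsto ω atTop atTop ∧ Monotone ω ∧ ∀ T, T₀ ≤ T → 0 < ω T ∧
      ∀ (K : Type) [Field K] [NumberField K], Module.finrank ℚ K ≤ ω T → ∀ io : K →+* ℂ,
        CoveredBy ⌊T ^ ((ω T : ℝ)⁻¹)⌋₊ ⌊T ^ ((ω T : ℝ)⁻¹)⌋₊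
          ((fun s i => io (s i)) '' Exceptional F C K io (ω T) T) ∧
        (Exceptional F C K io (ω T) T).Finite ∧
        ((Exceptional F C K io (ω T) T).ncard : ℝ) ≤
          T ^ ((ω T : ℝ)⁻¹) * ({x : K | HeightLe K T x}.ncard : ℝ) ^ (Fintype.card X - 1) ∧
        ((∃ Γ : Subgroup (GL ι ℂ), IsMoving F C Γ) →
          CMPoints F C K io (ω T) T ⊆ Exceptional F C K io (ω T) T) := by
  classical
  obtain ⟨D₀, A, -, hD₀, hA⟩ := Pool.Agent.V11280.CM.exists_bounds ι
  have h0 := Pool.Agent.V11273.PV.excC_omega F.connected F.isOpen F.nonempty F.analytic F.det_ne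
    F.c_ne F.eqn
  obtain ⟨ω, T₀, h1, h2, h3⟩ := Pool.Agent.V11273.PV.omega_transfer
    (E := fun k K [Field K] [NumberField K] io ξ T => Pool.Agent.V11273.PV.ExcB F.U
      (fun (v : ι × ι) x => F.Y x v.1 v.2) (Pool.Agent.V11273.PV.BadC F.U F.Y) K io k ξ T)
    (E' := fun k K [Field K] [NumberField K] io _ T =>
      if k < D₀ then ∅ else Exceptional F C K io k T) h0 (max 1 A)
    (fun T hT k k' hk hkk K _ _ io _ => by
      refine ⟨fun _ => 1, ?_⟩
      by_cases hkD : k < D₀
      · rw [if_pos hkD]
        exact Set.empty_subset _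
      · rw [if_neg hkD]
        exact exc_sub F C hD₀ hA ((le_max_left _ _).trans hT) ((le_max_right _ _).trans hT) hk
          (by omega) (by omega) K io)
  obtain ⟨T₁, hT₁⟩ := Filter.eventually_atTop.1 ((tendsto_atTop.1 h1) D₀)
  refine ⟨ω, max T₀ T₁, h1, h2, fun T hT => ?_⟩
  have hω : ¬ ω T < D₀ := not_lt.2 (hT₁ T ((le_max_right _ _).trans hT))
  obtain ⟨h4, h5⟩ := h3 T ((le_max_left _ _).trans hT)
  refine ⟨h4, fun K _ _ hK io => ?_⟩
  have h6 := h5 K hK io (fun _ => 1)
  simp only [if_neg hω] at h6
  obtain ⟨h7, h8, h9⟩ := h6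
  refine ⟨h7, h8, h9, ?_⟩
  rintro ⟨Γ, hinf, hsub, hst⟩ s ⟨g1, g2, M, g3, g4, g5⟩
  have hsU : (fun i => io (s i)) ∈ F.U := Pool.Agent.Y890.MV.innerM_sub _ h4 g2
  refine ⟨g1, g2, M, g3, g5, ?_⟩
  by_contra hcon
  push Not at hcon
  exact Pool.Agent.V11280.CM.not_separable (C := C) (Z := F.Y fun i => io (s i)) hinf
    (hst _ hsU) (fun γ hγ => hcon γ (hsub γ hγ)) g4

end Pool.Agent.Results.MP_2794d1_ag.CMAllFamilies
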