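import Pool.Agent.V11280.CM.Rel
import Pool.Agent.V11280.CM.Defs

/-!
# No points with complex multiplication of bounded size near almost all points of the base

A variation of Hodge structure over a nonempty connected open set `U` of the affine space with
coordinates `x_i`, `i ∈ X`, whose Gauss-Manin connection is algebraic, is given (`Family X ι`) by an
algebraic connection `c ∂_i Y = Y B_i` with an invertible matrix `Y` of analytic solutions (the period
matrix: the rows correspond to a locally constant basis of the integral local system, the columns to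
an algebraic basis of the vector bundle which is adapted to the Hodge filtration), and by the sets
`C j` of the indices of the columns which span the steps `Fil Y(x) (C j)` of the Hodge filtration at
`x`. Nothing is assumed on the monodromy. `galois` is the group of the constant matrices `g` such that
all polynomial relations over `ℂ[x]` between the entries of `Y` are relations between the entries of
`g Y` (the Zariski closure of the monodromy group for Gauss-Manin connections), `identityComponent`
is the intersection of its closed subgroups of finite index.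

At a CM point `s` there is an integral matrix `M` with distinct eigenvalues which preserves the Hodge
filtration of the fibre. Let `Γ` be a subgroup of the identity component (a subgroup of finite
index of the monodromy group) which is infinite and such that the stabilizers of the filtrations
are finite (automatic for the monodromy group, a discrete group, as the stabilizers of polarized
Hodge structures are compact).

**Theorem.** For one parameter: there is a set `E` of complex numbers of Hausdorff dimension zero such
that for all points `z` of `U` outside of `E`, all exponents `w > 0` (arbitrarily small), all number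
fields `K` and all `k`, for large `T`, ALL points `s` with coordinates in `K` of height at most `T` at
distance at most `T ^ (-w)` from `z` have the following properties. All the matrices `M` over the
integers of `K`, all conjugates of which are at most `T ^ k`, which preserve the Hodge filtration at
`s`, preserve its transforms under all elements of the identity component; and, if there is a group
`Γ` as above, none of these matrices has distinct eigenvalues, so that `s` is not a CM point with
complex multiplication of size at most `T ^ k`. For bases of dimension `d` and number fields of degree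
at most `D` the same holds outside of a set `E` of dimension at most `2 D (d - 1) / w`.

For instance, for all real `z` outside of a set of dimension zero all but finitely many of the
convergents of `z` are no CM points of size at most polynomial in the denominator.
-/

set_option autoImplicit false

open Filter NumberField Pool.Agent.V11280.CM.Pub

namespace Pool.Agent.Results.MP_2794d1_ag.CMNearPoints

variable {X ι : Type} [Fintype X] [DecidableEq X] [Fintype ι] [DecidableEq ι]

/-- At all points `s` with coordinates in `K` of height at most `T` and with `‖s - z‖ ≤ T ^ (-w)`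
(maximum norm) all matrices `M` over the integers of `K`, all conjugates of the entries of which are
at most `T ^ k`, and which preserve the filtration of the fibre at `s`, preserve its transforms under
the identity component of the Galois group; if there is a group `Γ` as above, no such matrix has
distinct eigenvalues. -/
def GoodNear {J : Type} (F : Family X ι) (C : J → Set ι) (z : X → ℂ) (w : ℝ)
    (K : IntermediateField ℚ ℂ) [NumberField K] (k : ℕ) (T : ℝ) : Prop :=
  ∀ s : X → K, (∀ i, HeightLe K T (s i)) → ‖(fun i => (s i : ℂ)) - z‖ ≤ T ^ (-w) →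
    ∀ M : Matrix ι ι (𝓞 K), (∀ a b (φ : K →+* ℂ), ‖φ (M a b : K)‖ ≤ T ^ (k : ℝ)) →
      IsEndo C (F.Y fun i => (s i : ℂ)) (M.map fun x => algebraMap K ℂ (x : K)) →
      (∀ g ∈ identityComponent F.galois,
        IsEndo C ((g : Matrix ι ι ℂ) * F.Y fun i => (s i : ℂ)) (M.map fun x => algebraMap K ℂ (x : K))) ∧
      ((∃ Γ : Subgroup (GL ι ℂ), IsMoving F C Γ) →
        ¬ (M.map fun x => algebraMap K ℂ (x : K)).charpoly.Separable)

lemma omega [Nonempty X] (F : Family X ι) :
    Pool.Agent.V11273.PV.OmegaStm (fun k K [Field K] [NumberField K] io ξ T =>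
      Pool.Agent.V11273.PV.ExcB F.U (fun (v : ι × ι) x => F.Y x v.1 v.2)
        (Pool.Agent.V11273.PV.BadC F.U F.Y) K io k ξ T) :=
  Pool.Agent.V11273.PV.excC_omega F.connected F.isOpen F.nonempty F.analytic F.det_ne F.c_ne F.eqn

lemma good_of {J : Type} [Finite J] {F : Family X ι} {C : J → Set ι} {z : X → ℂ} (hz : z ∈ F.U)
    {w : ℝ} (hw : 0 < w) {K : IntermediateField ℚ ℂ} [NumberField K] (k : ℕ)
    (h : ∀ k : ℕ, ∃ T₁ : ℝ, ∀ T : ℝ, T₁ ≤ T → ∀ s : X → K, (∀ i, Y120.HtLe K T (s i)) →
      ‖(fun i => (s i : ℂ)) - z‖ ≤ T ^ (-w) → ∀ P : MvPolynomial (ι × ι) ℂ,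
        Pool.Agent.V11273.PV.Small K (algebraMap K ℂ) k
          (Pool.Agent.H107.Per.res (fun _ => (1 : ℂ)) k) T P →
        MvPolynomial.eval (fun v => F.Y (fun j => (s j : ℂ)) v.1 v.2) P = 0 →
          ¬ Pool.Agent.V11273.PV.BadC F.U F.Y (fun j => (s j : ℂ)) P) :
    ∀ᶠ T : ℝ in atTop, GoodNear F C z w K k T := by
  obtain ⟨D₀, A, -, hD₀, hA⟩ := Pool.Agent.V11280.CM.exists_bounds ι
  obtain ⟨T₁, hT₁⟩ := h (max (k + 1) D₀)
  obtain ⟨δ, hδ, hball⟩ := Metric.isOpen_iff.1 F.isOpen z hz
  obtain ⟨T₂, hT₂⟩ := Filter.eventually_atTop.1
    ((tendsto_rpow_neg_atTop hw).eventually (gt_mem_nhds hδ))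
  refine Filter.eventually_atTop.2 ⟨max (max T₁ T₂) (max 1 A), fun T hT => ?_⟩
  have hT1 : T₁ ≤ T := ((le_max_left _ _).trans (le_max_left _ _)).trans hT
  have hT2 : T₂ ≤ T := ((le_max_right _ _).trans (le_max_left _ _)).trans hT
  have hT3 : 1 ≤ T := ((le_max_left _ _).trans (le_max_right _ _)).trans hT
  have hT4 : A ≤ T := ((le_max_right _ _).trans (le_max_right _ _)).trans hT
  intro s hs hsz M hM hend
  have hsU : (fun i => (s i : ℂ)) ∈ F.U := by
    apply hball
    rw [Metric.mem_ball, dist_eq_norm]
    exact hsz.trans_lt (hT₂ T hT2)
  have hdet := F.det_ne _ hsU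
  have key : ∀ g ∈ identityComponent F.galois,
      IsEndo C ((g : Matrix ι ι ℂ) * F.Y fun i => (s i : ℂ))
        (M.map fun x => algebraMap K ℂ (x : K)) := by
    intro g hg
    refine Pool.Agent.V11280.CM.end_of_rel hdet ?_ hend fun e c h0 => ?_
    · exact ((Matrix.isUnit_iff_isUnit_det _).1 g.isUnit).ne_zero
    · by_contra hne
      exact hT₁ T hT1 s hs hsz _ (Pool.Agent.V11280.CM.small_rel (algebraMap K ℂ) hD₀ hA
        (le_max_left _ _) (le_max_right _ _) hT3 hT4 M hM e c) h0 ⟨g, hg, hne⟩
  refine ⟨key, ?_⟩
  rintro ⟨Γ, hinf, hsub, hst⟩
  exact Pool.Agent.V11280.CM.not_separable (C := C) (Z := F.Y fun i => (s i : ℂ)) hinf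
    (hst _ hsU) fun γ hγ => key γ (hsub γ hγ)

/-- **Theorem.** Let `F` be a family over a base of dimension `d`, with the filtration given by the
sets of columns `C j`, `j ∈ J`.
(1) If `d = 1` there is a set `E` of Hausdorff dimension `0` such that for all `z ∈ U` outside of
`E`, all `w > 0`, all number fields `K ⊂ ℂ` and all `k`, the property `GoodNear F C z w K k T` holds
for all large `T`.
(2) In general for all `D` and `w > 0` there is a set `E` of Hausdorff dimension at most
`2 D (d - 1) / w` such that for all `z ∈ U` outside of `E`, all number fields `K ⊂ ℂ` of degree at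
most `D` and all `k`, the property `GoodNear F C z w K k T` holds for all large `T`. -/
theorem result [Nonempty X] {J : Type} [Finite J] (F : Family X ι) (C : J → Set ι) :
    (Fintype.card X = 1 → ∃ E : Set (X → ℂ), dimH E = 0 ∧ ∀ z ∈ F.U, z ∉ E → ∀ w : ℝ, 0 < w →
      ∀ (K : IntermediateField ℚ ℂ) [NumberField K], ∀ k : ℕ,
        ∀ᶠ T : ℝ in atTop, GoodNear F C z w K k T) ∧
    ∀ (D : ℕ) (w : ℝ), 0 < w → ∃ E : Set (X → ℂ),
      dimH E ≤ ENNReal.ofReal (2 * D * ((Fintype.card X : ℝ) - 1) / w) ∧ ∀ z ∈ F.U, z ∉ E →
        ∀ (K : IntermediateField ℚ ℂ) [NumberField K], Module.finrank ℚ K ≤ D → ∀ k : ℕ,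
          ∀ᶠ T : ℝ in atTop, GoodNear F C z w K k T := by
  have hcard : 1 ≤ Fintype.card X := Fintype.card_pos
  refine ⟨fun h1 => ?_, fun D w hw => ?_⟩
  · obtain ⟨E, hE, h⟩ := Pool.Agent.H107.Per.near_zero h1 F.isOpen (omega F) (fun _ => 1)
    exact ⟨E, hE, fun z hz hzE w hw K _ k => good_of hz hw k (h z hz hzE w hw K)⟩
  · obtain ⟨E, hE, h⟩ := Pool.Agent.H107.Per.near F.isOpen (omega F) (fun _ => 1) D hw
    refine ⟨E, hE.trans (le_of_eq ?_), fun z hz hzE K _ hK k =>
      good_of hz hw k (h z hz hzE K hK)⟩
    congr 2
    push_cast [Nat.cast_sub hcard]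
    ring

end Pool.Agent.Results.MP_2794d1_ag.CMNearPoints
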