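import Pool.Agent.V11273.GH.I3

/-!
# Almost all integral fibres of a variation of Hodge structure over the line are not CM

Let `𝕍` be a polarizable variation of `ℤ`-Hodge structure of geometric origin over an open part of the projective line over
`ℚ`, near the point `x = 0`, which may be a singular point with unipotent monodromy (replace `x` by a root of `x`). The period
matrix `P(x)` has as rows the coordinates with respect to a flat basis of the lattice, and as columns the elements of a basis
over `ℚ(x)` of the algebraic bundle which is adapted to the Hodge filtration. Its entries are combinations with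
complex coefficients of products of powers of `log x` and of G-functions: the members of a vector `h` of G-functions over `ℚ`
which solves a linear differential system `T y' = A y` with the conditions of Siegel and Galochkin (`GFamily`). The monodromy
group `Γ` consists of integral matrices, preserves the polarization `S`, and is Zariski dense in the differential Galois group
`G` (Schlesinger), which is here the group of all `g` such that `g` and `g⁻¹` preserve all polynomial relations over `ℂ(x)` of `P`
(`Variation`). Nothing else is assumed.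

**Theorem.** There are `c > 0` and `C` such that for all but `C (1 + N / (x + N)^c)` of the integers `t` with `x < t ≤ x + N`, at
which `P(1 / t)` is the period matrix of a Hodge structure polarized by `S`: all endomorphisms (of any size) of the Hodge
structure `𝕍(1 / t)` commute with the identity component of `G`, and `𝕍(1 / t)` is not a CM Hodge structure, if the monodromy
group `Γ` is infinite.

(A polarizable Hodge structure is CM if and only if it has an endomorphism with distinct eigenvalues.) So of the fibres over
`1 / t`, `t ≤ N`, at most `C (1 + N^(1-c))` are CM, for all variations with an infinite monodromy group (a variation with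
finite monodromy is constant after a finite covering). By Q1 the CM fibres should be finitely many if `𝕍` is not the
variation of a Shimura curve. Here the endomorphisms are of any size: the theorems BoundedEndomorphisms of the starting
files, and CMAllFamilies and CMNearPoints treat endomorphisms of bounded size (and all algebraic points), and the starting
theorem HypergeometricAlgebraicCM hypergeometric variations.

Proof. For an endomorphism `M` the tensor `Mᵀ S` of degree 2 is a Hodge tensor. By the theorem on relations of all heights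
between values of G-functions at almost all integral points (`Pool.Agent.Y120.R.gx` of the library) it remains a Hodge tensor after
all translations by elements of the Galois group, outside of the exceptional set. The translates by elements of `Γ` are
integral, and have the same norm in the Hodge metric, which for Hodge tensors is given by the polarization. So the orbit is
finite, the stabilizer is a closed subgroup of finite index of `G`, and `M` commutes with the identity component
(MP_0704bf_ag.AllTensorsIntegralFibres). If the eigenvalues of `M` are distinct, all subspaces which are stable under `M`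
are stable under its commutant, so the elements of `Γ` in the identity component preserve the Hodge filtration at `1 / t`.
There are only finitely many integral automorphisms of a polarized Hodge structure, so `Γ` is finite (`V11273/GH/I3`).
-/

set_option autoImplicit false

open PowerSeries Filter
open scoped Matrix

namespace Pool.Agent.Results.MP_2794d1_ag.IntegralFibresNotCM

/-- an integer polynomial as a power series with rational coefficients -/
noncomputable def toQ (P : Polynomial ℤ) : PowerSeries ℚ := ((P.map (Int.castRingHom ℚ) : Polynomial ℚ) : PowerSeries ℚ)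

/-- the power series `P(u^e)` -/
noncomputable def atPow (e : ℕ) (P : Polynomial ℤ) : PowerSeries ℂ :=
  ((Polynomial.expand ℂ e (P.map (Int.castRingHom ℂ)) : Polynomial ℂ) : PowerSeries ℂ)

/-- the matrices `G_s` over `ℤ[x]` with `T^s y^(s) = G_s y` for all solutions `y` of `T y' = A y` -/
noncomputable def iter {r : ℕ} (T : Polynomial ℤ) (A : Fin r → Fin r → Polynomial ℤ) : ℕ → Fin r → Fin r → Polynomial ℤ
  | 0 => fun i j => if i = j then 1 else 0
  | s + 1 => fun i j => T * Polynomial.derivative (iter T A s i j) + ∑ l, iter T A s i l * A l j -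
      (s : Polynomial ℤ) * (Polynomial.derivative T * iter T A s i j)

/-- The system `T y' = A y` has a fundamental matrix of solutions of the form `u^(-M) ∑_n Φ_n(u) (log u)^n` with
`u^e = x` and convergent power series `Φ_n`: the point `0` is regular or a regular singularity with rational
exponents. -/
def QuasiUnipotent {r : ℕ} (T : Polynomial ℤ) (A : Fin r → Fin r → Polynomial ℤ) : Prop :=
  ∃ (e M : ℕ) (K : ℝ) (Φ : Matrix (Fin r) (Fin r) (Polynomial (PowerSeries ℂ))), 1 ≤ e ∧ Φ.det ≠ 0 ∧
    (∀ i j n m, ‖coeff m ((Φ i j).coeff n)‖ ≤ K ^ (m + 1)) ∧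
    ∀ i j n, atPow e T * (X * PowerSeries.derivative ℂ ((Φ i j).coeff n) +
        ((n : PowerSeries ℂ) + 1) * (Φ i j).coeff (n + 1) - (M : PowerSeries ℂ) * (Φ i j).coeff n) =
      (e : PowerSeries ℂ) * X ^ e * ∑ l, atPow e (A i l) * (Φ l j).coeff n

/-- `h_1, ..., h_r` are G-functions with rational coefficients which solve the differential system `T y' = A y`, with
the conditions of Siegel and Galochkin, and `0` is a regular point or a regular singularity with rational exponents of
the system. -/
structure GFamily {r : ℕ} (T : Polynomial ℤ) (A : Fin r → Fin r → Polynomial ℤ) (h : Fin r → PowerSeries ℚ) : Prop where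
  /-- the denominator is not zero -/
  T_ne : T ≠ 0
  /-- the differential equations -/
  ode : ∀ i, toQ T * PowerSeries.derivative ℚ (h i) = ∑ j, toQ (A i j) * h j
  /-- the coefficients have geometric growth -/
  size : ∃ C : ℝ, ∀ i m, |((coeff m (h i) : ℚ) : ℝ)| ≤ C ^ (m + 1)
  /-- the common denominators of the coefficients have geometric growth -/
  den : ∃ C : ℝ, ∀ m : ℕ, ∃ d : ℕ, 0 < d ∧ (d : ℝ) ≤ C ^ (m + 1) ∧ ∀ i, ∀ j ≤ m, ∃ a : ℤ, (d : ℚ) * coeff j (h i) = a
  /-- Galochkin's condition: the common denominators of the matrices `G_s / s!` have geometric growth -/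
  galochkin : ∃ C : ℝ, ∀ m : ℕ, ∃ d : ℕ, 0 < d ∧ (d : ℝ) ≤ C ^ (m + 1) ∧ ∀ s ≤ m, ∀ i j,
    ∃ H : Polynomial ℤ, (d : Polynomial ℤ) * iter T A s i j = (s.factorial : Polynomial ℤ) * H
  /-- the local exponents at `0` are rational and the singularity is regular -/
  regular : QuasiUnipotent T A

theorem iter_eq {r : ℕ} (T : Polynomial ℤ) (A : Fin r → Fin r → Polynomial ℤ) (s : ℕ) :
    iter T A s = Pool.Agent.Y120.GH.itm T A s := by
  induction s with
  | zero => rfl
  | succ s ih =>
    funext i j
    rw [iter, Pool.Agent.Y120.GH.itm, ih]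

theorem qu_eq {r : ℕ} {T : Polynomial ℤ} {A : Fin r → Fin r → Polynomial ℤ} (h : QuasiUnipotent T A) :
    Pool.Agent.Y120.GH.QU0 T A := by
  obtain ⟨e, M, K, Φ, he, hdet, hc, heq⟩ := h
  have he0 : e ≠ 0 := by omega
  refine ⟨e, he0, M, K, Φ, hc, fun i j n => ?_, hdet⟩
  have h1 := heq i j n
  simp only [atPow] at h1
  rw [Pool.Agent.Y120.GH.expand_poly he0]
  simp only [Pool.Agent.Y120.GH.expand_poly he0]
  exact h1

theorem fam {r : ℕ} {T : Polynomial ℤ} {A : Fin r → Fin r → Polynomial ℤ} {h : Fin r → PowerSeries ℚ}
    (hG : GFamily T A h) (δ : ℕ) : Pool.Agent.Y120.R.Fam δ h :=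
  ⟨hG.size, Pool.Agent.Y120.GH.family_main hG.T_ne hG.ode hG.size hG.den (by
    obtain ⟨C, hC⟩ := hG.galochkin
    refine ⟨C, fun m => ?_⟩
    obtain ⟨d, h1, h2, h3⟩ := hC m
    refine ⟨d, h1, h2, fun s hs i' j' => ?_⟩
    rw [← iter_eq]
    exact h3 s hs i' j') (qu_eq hG.regular) δ⟩

section family
variable {r n : ℕ}

/-- The period matrix at `x = 1 / s`: the entries are the polynomials `P a b` in `log s` and in the `h_l(1 / s)`. -/
noncomputable def perMat (h : Fin r → PowerSeries ℚ) (P : Fin n → Fin n → MvPolynomial (Option (Fin r)) ℂ) (s : ℝ) :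
    Matrix (Fin n) (Fin n) ℂ :=
  Matrix.of fun a b => MvPolynomial.aeval (fun o : Option (Fin r) => o.elim ((Real.log s : ℝ) : ℂ)
    fun l => ((∑' m : ℕ, ((coeff m (h l) : ℚ) : ℝ) * (1 / s) ^ m : ℝ) : ℂ)) (P a b)

/-- the value at `x = 1 / s` and at the matrix `Z` of a polynomial in the entries of a matrix over `ℂ[x]` -/
noncomputable def relAt (R : MvPolynomial (Fin n × Fin n) (Polynomial ℂ)) (s : ℝ) (Z : Matrix (Fin n) (Fin n) ℂ) : ℂ :=
  MvPolynomial.eval₂ (Polynomial.evalRingHom (1 / (s : ℂ))) (fun v => Z v.1 v.2) R

/-- `g P(x)` satisfies all polynomial relations over `ℂ[x]` which `P(x)` satisfies. -/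
def Preserves (h : Fin r → PowerSeries ℚ) (P : Fin n → Fin n → MvPolynomial (Option (Fin r)) ℂ)
    (g : Matrix (Fin n) (Fin n) ℂ) : Prop :=
  ∀ R : MvPolynomial (Fin n × Fin n) (Polynomial ℂ), (∀ᶠ s : ℝ in Filter.atTop, relAt R s (perMat h P s) = 0) →
    ∀ᶠ s : ℝ in Filter.atTop, relAt R s (g * perMat h P s) = 0

/-- The group of the matrices `g` such that `g` and `g⁻¹` preserve the relations. If `P` is a fundamental matrix of a linear
differential system over `ℂ(x)` this is its differential Galois group. -/
noncomputable def Gal (h : Fin r → PowerSeries ℚ) (P : Fin n → Fin n → MvPolynomial (Option (Fin r)) ℂ) :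
    Subgroup (Matrix.GeneralLinearGroup (Fin n) ℂ) where
  carrier := {g | Preserves h P (g : Matrix (Fin n) (Fin n) ℂ) ∧
    Preserves h P ((g⁻¹ : Matrix.GeneralLinearGroup (Fin n) ℂ) : Matrix (Fin n) (Fin n) ℂ)}
  mul_mem' := fun hg hg' => (Pool.Agent.Y123.GN.Gs h P).mul_mem' hg hg'
  one_mem' := (Pool.Agent.Y123.GN.Gs h P).one_mem'
  inv_mem' := fun hg => (Pool.Agent.Y123.GN.Gs h P).inv_mem' hg

theorem gal_eq (h : Fin r → PowerSeries ℚ) (P : Fin n → Fin n → MvPolynomial (Option (Fin r)) ℂ) :
    Gal h P = Pool.Agent.Y123.GN.Gs h P := rfl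

/-- the subgroup `H` of `G` is defined by polynomial equations -/
def ClosedIn {G : Subgroup (Matrix.GeneralLinearGroup (Fin n) ℂ)} (H : Subgroup G) : Prop :=
  ∃ E : Set (MvPolynomial (Fin n × Fin n) ℂ), ∀ h : G, h ∈ H ↔
    ∀ e ∈ E, MvPolynomial.eval (fun v => ((h : Matrix.GeneralLinearGroup (Fin n) ℂ) : Matrix (Fin n) (Fin n) ℂ) v.1 v.2) e = 0

/-- the elements of `G` which lie in all closed subgroups of finite index of `G` -/
def identityComponent (G : Subgroup (Matrix.GeneralLinearGroup (Fin n) ℂ)) : Set (Matrix.GeneralLinearGroup (Fin n) ℂ) :=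
  {g | ∃ hg : g ∈ G, ∀ H : Subgroup G, H.FiniteIndex → ClosedIn H → (⟨g, hg⟩ : G) ∈ H}

end family

section
variable {ρ n : ℕ}

/-- The Hodge structure with the period matrix `Y` has a basis `Z` adapted to the Hodge decomposition and unitary for the Hodge
metric: `Z_b` is in `F^(p b)` (the span of the columns `a` of `Y` with `p a ≥ p b`), its conjugate is in the span of the `Z_a` with
`p a = w - p b`, and `S(Z_a, conj Z_b) = i ^ (w - 2 p b)` if `a = b`, and `0` if not. -/
def HasUnitaryBasis (p : Fin n → ℤ) (w : ℤ) (S Y : Matrix (Fin n) (Fin n) ℂ) : Prop :=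
  ∃ Z T M : Matrix (Fin n) (Fin n) ℂ, Z = Y * T ∧ (∀ a b, T a b ≠ 0 → p b ≤ p a) ∧
    Z.map (starRingEnd ℂ) = Z * M ∧ (∀ a b, M a b ≠ 0 → p a + p b = w) ∧
    Zᵀ * S * Z.map (starRingEnd ℂ) = Matrix.diagonal fun b => Complex.I ^ (w - 2 * p b)

/-- an integral matrix as a complex matrix -/
def toC (M : Matrix (Fin n) (Fin n) ℤ) : Matrix (Fin n) (Fin n) ℂ := M.map (Int.cast : ℤ → ℂ)

/-- a polarized variation of Hodge structure with the period matrix `P` -/
structure Variation (h : Fin ρ → PowerSeries ℚ) (P : Fin n → Fin n → MvPolynomial (Option (Fin ρ)) ℂ) where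
  /-- the weight -/
  w : ℤ
  /-- the levels of the columns in the Hodge filtration -/
  p : Fin n → ℤ
  /-- the polarization in the flat basis -/
  S : Matrix (Fin n) (Fin n) ℤ
  /-- the monodromy group -/
  monodromy : Subgroup (Matrix.GeneralLinearGroup (Fin n) ℂ)
  le_galois : monodromy ≤ Gal h P
  /-- the monodromy group is Zariski dense in the Galois group -/
  dense : ∀ Q : MvPolynomial (Fin n × Fin n) ℂ,
    (∀ g ∈ monodromy, MvPolynomial.eval (fun v => (g : Matrix (Fin n) (Fin n) ℂ) v.1 v.2) Q = 0) →
    ∀ g ∈ Gal h P, MvPolynomial.eval (fun v => (g : Matrix (Fin n) (Fin n) ℂ) v.1 v.2) Q = 0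
  /-- it consists of integral matrices -/
  integral : ∀ g ∈ monodromy, ∀ a b, ∃ m : ℤ, (g : Matrix (Fin n) (Fin n) ℂ) a b = m
  /-- it preserves the polarization -/
  preserves : ∀ g ∈ monodromy, (g : Matrix (Fin n) (Fin n) ℂ)ᵀ * toC S * (g : Matrix (Fin n) (Fin n) ℂ) = toC S

variable {h : Fin ρ → PowerSeries ℚ} {P : Fin n → Fin n → MvPolynomial (Option (Fin ρ)) ℂ}

/-- the fibre at `1 / t` is a polarized Hodge structure -/
def IsFibre (V : Variation h P) (t : ℕ) : Prop := HasUnitaryBasis V.p V.w (toC V.S) (perMat h P (t : ℝ))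

/-- The integral matrix `M` is an endomorphism of the Hodge structure at `1 / t`: it preserves the Hodge filtration, that is, it maps
the column `b` of the period matrix to the span of the columns `a` with `p a ≥ p b`. -/
def IsEndo (V : Variation h P) (t : ℕ) (M : Matrix (Fin n) (Fin n) ℤ) : Prop :=
  ∃ N : Matrix (Fin n) (Fin n) ℂ, toC M * perMat h P (t : ℝ) = perMat h P (t : ℝ) * N ∧
    ∀ a b, N a b ≠ 0 → V.p b ≤ V.p a

/-- some endomorphism of the Hodge structure at `1 / t` does not commute with some element of the identity component of the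
Galois group -/
def Moved (V : Variation h P) (t : ℕ) : Prop :=
  ∃ M : Matrix (Fin n) (Fin n) ℤ, IsEndo V t M ∧ ∃ g ∈ identityComponent (Gal h P),
    (g : Matrix (Fin n) (Fin n) ℂ) * toC M ≠ toC M * (g : Matrix (Fin n) (Fin n) ℂ)

/-- the Hodge structure at `1 / t` is CM: it has an endomorphism with distinct eigenvalues -/
def IsCM (V : Variation h P) (t : ℕ) : Prop :=
  ∃ M : Matrix (Fin n) (Fin n) ℤ, IsEndo V t M ∧ (toC M).charpoly.Separable

end

/-- **The theorem.** `h` are G-functions, `P` a matrix of polynomials of degree `≤ e` in `log x` and `h(x)`, `V` a polarized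
variation of Hodge structure with the period matrix `P`. The number of the `t` in `(x, x + N]` for which the fibre at
`1 / t` is a polarized Hodge structure with an endomorphism that does not commute with the identity component of the Galois group,
or (if the monodromy group is infinite) a CM Hodge structure, is at most `C (1 + N / (x + N)^c)`. -/
theorem result (e ρ n : ℕ) (T : Polynomial ℤ) (A : Fin ρ → Fin ρ → Polynomial ℤ) (h : Fin ρ → PowerSeries ℚ)
    (hG : GFamily T A h) :
    ∃ c C : ℝ, 0 < c ∧ 0 ≤ C ∧ ∀ P : Fin n → Fin n → MvPolynomial (Option (Fin ρ)) ℂ,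
      (∀ a b, (P a b).totalDegree ≤ e) → ∀ (V : Variation h P) (x N : ℕ), 1 ≤ N →
      (({t : ℕ | (x < t ∧ t ≤ x + N) ∧ IsFibre V t ∧ (Moved V t ∨ (Infinite V.monodromy ∧ IsCM V t))}.ncard : ℕ) : ℝ) ≤
        C * (1 + N / ((x : ℝ) + N) ^ c) := by
  classical
  obtain ⟨c, C, hc, hC, hmain⟩ := Pool.Agent.V11273.GH.endo_one e ρ n h (fam hG)
  refine ⟨c, C, hc, hC, fun P hP V x N hN => ?_⟩
  set E := {t : ℕ | (x < t ∧ t ≤ x + N) ∧ IsFibre V t ∧ (Moved V t ∨ (Infinite V.monodromy ∧ IsCM V t))} with hE
  have hfin : E.Finite := (Set.finite_Iic (x + N)).subset fun t ht => ht.1.2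
  rw [Set.ncard_eq_toFinset_card E hfin]
  refine hmain P hP V.p V.w V.S V.monodromy V.le_galois V.dense V.integral V.preserves x N hN _ fun t ht => ?_
  have ht' : t ∈ E := hfin.mem_toFinset.1 ht
  obtain ⟨hbox, hfr, hor⟩ := ht'
  refine ⟨hbox, hfr, ?_⟩
  rcases hor with ⟨M, hM1, hM2⟩ | ⟨hinf, M, hM1, hM2⟩
  · exact ⟨M, hM1, hM2⟩
  · exact ⟨M, hM1, Pool.Agent.V11273.GH.cm_moves V.le_galois V.integral V.preserves hinf hfr hM2 hM1⟩

end Pool.Agent.Results.MP_2794d1_ag.IntegralFibresNotCM
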