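import Pool.Agent.V11273.GH.I3
import Pool.Agent.H223.PS.Engine

/-!
# No CM fibres in small residue classes around almost every p-adic integer

Let `𝕍` be a polarizable variation of `ℤ`-Hodge structure of geometric origin over an open part of the projective line over
`ℚ`, near the point `x = 0`, which may be a singular point with unipotent monodromy. The period matrix `P(x)` has as rows the
coordinates with respect to a flat basis of the lattice, and as columns the elements of a basis over `ℚ(x)` of the algebraic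
bundle which is adapted to the Hodge filtration. Its entries are combinations with complex coefficients of products of
powers of `log x` and of G-functions: the members of a vector `h` of G-functions over `ℚ` which solves a linear
differential system `T y' = A y` with the conditions of Siegel and Galochkin (`GFamily`). The monodromy group `Γ` consists of
integral matrices, preserves the polarization `S`, and is Zariski dense in the differential Galois group `G`, which is here the
group of all `g` such that `g` and `g⁻¹` preserve all polynomial relations over `ℂ(x)` of `P` (`Variation`).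

**Theorem.** There is `0 < c ≤ 1`, which depends only on `h`, the rank `n` and a bound `e` for the degrees of the polynomials,
with the following property. For all sequences `𝕍_j` of such variations, all primes `p` and all `σ > 0` there is a set `E` of
`p`-adic integers of Hausdorff dimension at most `(1 - c) / σ` such that for all `p`-adic integers `α` outside of `E`, all `j` and all
large `T`: for ALL natural numbers `1 ≤ t ≤ T` with `|t - α|_p ≤ T^(-σ)` for which the fibre at `1 / t` is a polarized Hodge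
structure, all endomorphisms (of any size) of `𝕍_j(1 / t)` commute with the identity component of the Galois group, and
`𝕍_j(1 / t)` is not CM if the monodromy group is infinite.

For `1 - c < σ < 1` the set `E` is of measure zero and there are about `T^(1 - σ)` such numbers `t`: the residue class of `α` modulo
`p^f`, `p^f ≥ T^σ`. In IntegralFibresNotCM there may be `C T^(1-c)` exceptional numbers `t ≤ T`; here there are no exceptions in
the residue classes of almost all `α`, all variations of a sequence and all large `T` at once.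

Proof. IntegralFibresNotCM (`Pool/Agent/V11273/GH`) and the covering argument in `ℤ_p` of helper223 (`Pool/Agent/H223/PS/Engine`).
-/

set_option autoImplicit false

open PowerSeries Filter
open scoped Matrix

namespace Pool.Agent.Results.MP_2794d1_ag.PadicClassesNotCM

/-- an integer polynomial as a power series with rational coefficients -/
noncomputable def toQ (P : Polynomial ℤ) : PowerSeries ℚ := ((P.map (Int.castRingHom ℚ) : Polynomial ℚ) : PowerSeries ℚ)

/-- the power series `P(u^e)` -/
noncomputable def atPow (e : ℕ) (P : Polynomial ℤ) : PowerSeries ℂ :=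
  ((Polynomial.expand ℂ e (P.map (Int.castRingHom ℂ)) : Polynomial ℂ) : PowerSeries ℂ)

/-- the matrices `G_s` over `ℤ[x]` with `T^s y^(s) = G_s y` for all solutions `y` of `T y' = A y` -/
noncomputable def iter {r : ℕ} (T : Polynomial ℤ) (A : Fin r → Fin r → Polynomial ℤ) : ℕ → Fin r → Fin r → Polynomial ℤ
  | 0 => fun i j => if i = j then 1 else 0
  | s + 1 => fun i j => T * Polynomial.derivative (iter T A s i j) + ∑ l, iter T A s i l * A l j -
      (s : Polynomial ℤ) * (Polynomial.derivative T * iter T A s i j)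

/-- The system `T y' = A y` has a fundamental matrix of solutions of the form `u^(-M) ∑_n Φ_n(u) (log u)^n` with
`u^e = x` and convergent power series `Φ_n`: the point `0` is regular or a regular singularity with rational
exponents. -/
def QuasiUnipotent {r : ℕ} (T : Polynomial ℤ) (A : Fin r → Fin r → Polynomial ℤ) : Prop :=
  ∃ (e M : ℕ) (K : ℝ) (Φ : Matrix (Fin r) (Fin r) (Polynomial (PowerSeries ℂ))), 1 ≤ e ∧ Φ.det ≠ 0 ∧
    (∀ i j n m, ‖coeff m ((Φ i j).coeff n)‖ ≤ K ^ (m + 1)) ∧
    ∀ i j n, atPow e T * (X * PowerSeries.derivative ℂ ((Φ i j).coeff n) +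
        ((n : PowerSeries ℂ) + 1) * (Φ i j).coeff (n + 1) - (M : PowerSeries ℂ) * (Φ i j).coeff n) =
      (e : PowerSeries ℂ) * X ^ e * ∑ l, atPow e (A i l) * (Φ l j).coeff n

/-- `h_1, ..., h_r` are G-functions with rational coefficients which solve the differential system `T y' = A y`, with
the conditions of Siegel and Galochkin, and `0` is a regular point or a regular singularity with rational exponents of
the system. -/
structure GFamily {r : ℕ} (T : Polynomial ℤ) (A : Fin r → Fin r → Polynomial ℤ) (h : Fin r → PowerSeries ℚ) : Prop where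
  /-- the denominator is not zero -/
  T_ne : T ≠ 0
  /-- the differential equations -/
  ode : ∀ i, toQ T * PowerSeries.derivative ℚ (h i) = ∑ j, toQ (A i j) * h j
  /-- the coefficients have geometric growth -/
  size : ∃ C : ℝ, ∀ i m, |((coeff m (h i) : ℚ) : ℝ)| ≤ C ^ (m + 1)
  /-- the common denominators of the coefficients have geometric growth -/
  den : ∃ C : ℝ, ∀ m : ℕ, ∃ d : ℕ, 0 < d ∧ (d : ℝ) ≤ C ^ (m + 1) ∧ ∀ i, ∀ j ≤ m, ∃ a : ℤ, (d : ℚ) * coeff j (h i) = a
  /-- Galochkin's condition: the common denominators of the matrices `G_s / s!` have geometric growth -/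
  galochkin : ∃ C : ℝ, ∀ m : ℕ, ∃ d : ℕ, 0 < d ∧ (d : ℝ) ≤ C ^ (m + 1) ∧ ∀ s ≤ m, ∀ i j,
    ∃ H : Polynomial ℤ, (d : Polynomial ℤ) * iter T A s i j = (s.factorial : Polynomial ℤ) * H
  /-- the local exponents at `0` are rational and the singularity is regular -/
  regular : QuasiUnipotent T A

theorem iter_eq {r : ℕ} (T : Polynomial ℤ) (A : Fin r → Fin r → Polynomial ℤ) (s : ℕ) :
    iter T A s = Pool.Agent.Y120.GH.itm T A s := by
  induction s with
  | zero => rfl
  | succ s ih =>
    funext i j
    rw [iter, Pool.Agent.Y120.GH.itm, ih]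

theorem qu_eq {r : ℕ} {T : Polynomial ℤ} {A : Fin r → Fin r → Polynomial ℤ} (h : QuasiUnipotent T A) :
    Pool.Agent.Y120.GH.QU0 T A := by
  obtain ⟨e, M, K, Φ, he, hdet, hc, heq⟩ := h
  have he0 : e ≠ 0 := by omega
  refine ⟨e, he0, M, K, Φ, hc, fun i j n => ?_, hdet⟩
  have h1 := heq i j n
  simp only [atPow] at h1
  rw [Pool.Agent.Y120.GH.expand_poly he0]
  simp only [Pool.Agent.Y120.GH.expand_poly he0]
  exact h1

theorem fam {r : ℕ} {T : Polynomial ℤ} {A : Fin r → Fin r → Polynomial ℤ} {h : Fin r → PowerSeries ℚ}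
    (hG : GFamily T A h) (δ : ℕ) : Pool.Agent.Y120.R.Fam δ h :=
  ⟨hG.size, Pool.Agent.Y120.GH.family_main hG.T_ne hG.ode hG.size hG.den (by
    obtain ⟨C, hC⟩ := hG.galochkin
    refine ⟨C, fun m => ?_⟩
    obtain ⟨d, h1, h2, h3⟩ := hC m
    refine ⟨d, h1, h2, fun s hs i' j' => ?_⟩
    rw [← iter_eq]
    exact h3 s hs i' j') (qu_eq hG.regular) δ⟩

section family
variable {r n : ℕ}

/-- The period matrix at `x = 1 / s`: the entries are the polynomials `P a b` in `log s` and in the `h_l(1 / s)`. -/
noncomputable def perMat (h : Fin r → PowerSeries ℚ) (P : Fin n → Fin n → MvPolynomial (Option (Fin r)) ℂ) (s : ℝ) :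
    Matrix (Fin n) (Fin n) ℂ :=
  Matrix.of fun a b => MvPolynomial.aeval (fun o : Option (Fin r) => o.elim ((Real.log s : ℝ) : ℂ)
    fun l => ((∑' m : ℕ, ((coeff m (h l) : ℚ) : ℝ) * (1 / s) ^ m : ℝ) : ℂ)) (P a b)

/-- the value at `x = 1 / s` and at the matrix `Z` of a polynomial in the entries of a matrix over `ℂ[x]` -/
noncomputable def relAt (R : MvPolynomial (Fin n × Fin n) (Polynomial ℂ)) (s : ℝ) (Z : Matrix (Fin n) (Fin n) ℂ) : ℂ :=
  MvPolynomial.eval₂ (Polynomial.evalRingHom (1 / (s : ℂ))) (fun v => Z v.1 v.2) R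

/-- `g P(x)` satisfies all polynomial relations over `ℂ[x]` which `P(x)` satisfies. -/
def Preserves (h : Fin r → PowerSeries ℚ) (P : Fin n → Fin n → MvPolynomial (Option (Fin r)) ℂ)
    (g : Matrix (Fin n) (Fin n) ℂ) : Prop :=
  ∀ R : MvPolynomial (Fin n × Fin n) (Polynomial ℂ), (∀ᶠ s : ℝ in Filter.atTop, relAt R s (perMat h P s) = 0) →
    ∀ᶠ s : ℝ in Filter.atTop, relAt R s (g * perMat h P s) = 0

/-- The group of the matrices `g` such that `g` and `g⁻¹` preserve the relations. If `P` is a fundamental matrix of a linear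
differential system over `ℂ(x)` this is its differential Galois group. -/
noncomputable def Gal (h : Fin r → PowerSeries ℚ) (P : Fin n → Fin n → MvPolynomial (Option (Fin r)) ℂ) :
    Subgroup (Matrix.GeneralLinearGroup (Fin n) ℂ) where
  carrier := {g | Preserves h P (g : Matrix (Fin n) (Fin n) ℂ) ∧
    Preserves h P ((g⁻¹ : Matrix.GeneralLinearGroup (Fin n) ℂ) : Matrix (Fin n) (Fin n) ℂ)}
  mul_mem' := fun hg hg' => (Pool.Agent.Y123.GN.Gs h P).mul_mem' hg hg'
  one_mem' := (Pool.Agent.Y123.GN.Gs h P).one_mem'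
  inv_mem' := fun hg => (Pool.Agent.Y123.GN.Gs h P).inv_mem' hg

theorem gal_eq (h : Fin r → PowerSeries ℚ) (P : Fin n → Fin n → MvPolynomial (Option (Fin r)) ℂ) :
    Gal h P = Pool.Agent.Y123.GN.Gs h P := rfl

/-- the subgroup `H` of `G` is defined by polynomial equations -/
def ClosedIn {G : Subgroup (Matrix.GeneralLinearGroup (Fin n) ℂ)} (H : Subgroup G) : Prop :=
  ∃ E : Set (MvPolynomial (Fin n × Fin n) ℂ), ∀ h : G, h ∈ H ↔
    ∀ e ∈ E, MvPolynomial.eval (fun v => ((h : Matrix.GeneralLinearGroup (Fin n) ℂ) : Matrix (Fin n) (Fin n) ℂ) v.1 v.2) e = 0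

/-- the elements of `G` which lie in all closed subgroups of finite index of `G` -/
def identityComponent (G : Subgroup (Matrix.GeneralLinearGroup (Fin n) ℂ)) : Set (Matrix.GeneralLinearGroup (Fin n) ℂ) :=
  {g | ∃ hg : g ∈ G, ∀ H : Subgroup G, H.FiniteIndex → ClosedIn H → (⟨g, hg⟩ : G) ∈ H}

end family

section
variable {ρ n : ℕ}

/-- The Hodge structure with the period matrix `Y` has a basis `Z` adapted to the Hodge decomposition and unitary for the Hodge
metric: `Z_b` is in `F^(p b)` (the span of the columns `a` of `Y` with `p a ≥ p b`), its conjugate is in the span of the `Z_a` with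
`p a = w - p b`, and `S(Z_a, conj Z_b) = i ^ (w - 2 p b)` if `a = b`, and `0` if not. -/
def HasUnitaryBasis (p : Fin n → ℤ) (w : ℤ) (S Y : Matrix (Fin n) (Fin n) ℂ) : Prop :=
  ∃ Z T M : Matrix (Fin n) (Fin n) ℂ, Z = Y * T ∧ (∀ a b, T a b ≠ 0 → p b ≤ p a) ∧
    Z.map (starRingEnd ℂ) = Z * M ∧ (∀ a b, M a b ≠ 0 → p a + p b = w) ∧
    Zᵀ * S * Z.map (starRingEnd ℂ) = Matrix.diagonal fun b => Complex.I ^ (w - 2 * p b)

/-- an integral matrix as a complex matrix -/
def toC (M : Matrix (Fin n) (Fin n) ℤ) : Matrix (Fin n) (Fin n) ℂ := M.map (Int.cast : ℤ → ℂ)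

/-- a polarized variation of Hodge structure with the period matrix `P` -/
structure Variation (h : Fin ρ → PowerSeries ℚ) (P : Fin n → Fin n → MvPolynomial (Option (Fin ρ)) ℂ) where
  /-- the weight -/
  w : ℤ
  /-- the levels of the columns in the Hodge filtration -/
  p : Fin n → ℤ
  /-- the polarization in the flat basis -/
  S : Matrix (Fin n) (Fin n) ℤ
  /-- the monodromy group -/
  monodromy : Subgroup (Matrix.GeneralLinearGroup (Fin n) ℂ)
  le_galois : monodromy ≤ Gal h P
  /-- the monodromy group is Zariski dense in the Galois group -/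
  dense : ∀ Q : MvPolynomial (Fin n × Fin n) ℂ,
    (∀ g ∈ monodromy, MvPolynomial.eval (fun v => (g : Matrix (Fin n) (Fin n) ℂ) v.1 v.2) Q = 0) →
    ∀ g ∈ Gal h P, MvPolynomial.eval (fun v => (g : Matrix (Fin n) (Fin n) ℂ) v.1 v.2) Q = 0
  /-- it consists of integral matrices -/
  integral : ∀ g ∈ monodromy, ∀ a b, ∃ m : ℤ, (g : Matrix (Fin n) (Fin n) ℂ) a b = m
  /-- it preserves the polarization -/
  preserves : ∀ g ∈ monodromy, (g : Matrix (Fin n) (Fin n) ℂ)ᵀ * toC S * (g : Matrix (Fin n) (Fin n) ℂ) = toC S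

variable {h : Fin ρ → PowerSeries ℚ} {P : Fin n → Fin n → MvPolynomial (Option (Fin ρ)) ℂ}

/-- the fibre at `1 / t` is a polarized Hodge structure -/
def IsFibre (V : Variation h P) (t : ℕ) : Prop := HasUnitaryBasis V.p V.w (toC V.S) (perMat h P (t : ℝ))

/-- The integral matrix `M` is an endomorphism of the Hodge structure at `1 / t`: it preserves the Hodge filtration, that is, it maps
the column `b` of the period matrix to the span of the columns `a` with `p a ≥ p b`. -/
def IsEndo (V : Variation h P) (t : ℕ) (M : Matrix (Fin n) (Fin n) ℤ) : Prop :=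
  ∃ N : Matrix (Fin n) (Fin n) ℂ, toC M * perMat h P (t : ℝ) = perMat h P (t : ℝ) * N ∧
    ∀ a b, N a b ≠ 0 → V.p b ≤ V.p a

/-- some endomorphism of the Hodge structure at `1 / t` does not commute with some element of the identity component of the
Galois group -/
def Moved (V : Variation h P) (t : ℕ) : Prop :=
  ∃ M : Matrix (Fin n) (Fin n) ℤ, IsEndo V t M ∧ ∃ g ∈ identityComponent (Gal h P),
    (g : Matrix (Fin n) (Fin n) ℂ) * toC M ≠ toC M * (g : Matrix (Fin n) (Fin n) ℂ)

/-- the Hodge structure at `1 / t` is CM: it has an endomorphism with distinct eigenvalues -/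
def IsCM (V : Variation h P) (t : ℕ) : Prop :=
  ∃ M : Matrix (Fin n) (Fin n) ℤ, IsEndo V t M ∧ (toC M).charpoly.Separable

end

/-- the exceptional numbers: the fibre at `1 / t` is a polarized Hodge structure with an endomorphism that does not commute
with the identity component of the Galois group, or (if the monodromy group is infinite) CM -/
def Bad {ρ n : ℕ} {h : Fin ρ → PowerSeries ℚ} {P : Fin n → Fin n → MvPolynomial (Option (Fin ρ)) ℂ}
    (V : Variation h P) : Set ℕ :=
  {t | 1 ≤ t ∧ IsFibre V t ∧ (Moved V t ∨ (Infinite V.monodromy ∧ IsCM V t))}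

theorem count (e ρ n : ℕ) (T : Polynomial ℤ) (A : Fin ρ → Fin ρ → Polynomial ℤ) (h : Fin ρ → PowerSeries ℚ)
    (hG : GFamily T A h) :
    ∃ c C : ℝ, 0 < c ∧ c ≤ 1 ∧ 0 ≤ C ∧ ∀ P : Fin n → Fin n → MvPolynomial (Option (Fin ρ)) ℂ,
      (∀ a b, (P a b).totalDegree ≤ e) → ∀ (V : Variation h P) (X : ℕ), 1 ≤ X →
      {t : ℕ | t ∈ Bad V ∧ t ≤ X}.Finite ∧ (({t : ℕ | t ∈ Bad V ∧ t ≤ X}.ncard : ℕ) : ℝ) ≤ C * (X : ℝ) ^ (1 - c) := by
  classical
  obtain ⟨c, C, hc, hC, hmain⟩ := Pool.Agent.V11273.GH.endo_one e ρ n h (fam hG)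
  refine ⟨min c 1, C * 2, lt_min hc one_pos, min_le_right _ _, by positivity, fun P hP V X hX => ?_⟩
  have hfin : {t : ℕ | t ∈ Bad V ∧ t ≤ X}.Finite := (Set.finite_Iic X).subset fun t ht => ht.2
  refine ⟨hfin, ?_⟩
  rw [Set.ncard_eq_toFinset_card _ hfin]
  have h1 := hmain P hP V.p V.w V.S V.monodromy V.le_galois V.dense V.integral V.preserves 0 X hX hfin.toFinset
    fun t ht => by
      have ht' : t ∈ {t : ℕ | t ∈ Bad V ∧ t ≤ X} := hfin.mem_toFinset.1 ht
      obtain ⟨⟨ht1, hfr, hor⟩, htX⟩ := ht'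
      refine ⟨⟨by omega, by omega⟩, hfr, ?_⟩
      rcases hor with ⟨M, hM1, hM2⟩ | ⟨hinf, M, hM1, hM2⟩
      · exact ⟨M, hM1, hM2⟩
      · exact ⟨M, hM1, Pool.Agent.V11273.GH.cm_moves V.le_galois V.integral V.preserves hinf hfr hM2 hM1⟩
  refine h1.trans ?_
  have hX0 : (0 : ℝ) < X := by
    have : 0 < X := by omega
    exact_mod_cast this
  have hX1 : (1 : ℝ) ≤ X := by exact_mod_cast hX
  have h2 : (X : ℝ) / (((0 : ℕ) : ℝ) + X) ^ c = (X : ℝ) ^ (1 - c) := by
    rw [Nat.cast_zero, zero_add, Real.rpow_sub hX0, Real.rpow_one]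
  rw [h2, mul_assoc]
  refine mul_le_mul_of_nonneg_left ?_ hC
  have h3 : (X : ℝ) ^ (1 - c) ≤ (X : ℝ) ^ (1 - min c 1) :=
    Real.rpow_le_rpow_of_exponent_le hX1 (by linarith [min_le_left c 1])
  have h4 : (1 : ℝ) ≤ (X : ℝ) ^ (1 - min c 1) := Real.one_le_rpow hX1 (by linarith [min_le_right c 1])
  linarith

/-- **The theorem.** `h` are G-functions, `P j` matrices of polynomials of degree `≤ e` in `log x` and `h(x)`, `V j` polarized
variations of Hodge structure with these period matrices, `p` a prime, `σ > 0`. Outside of a set `E` of `p`-adic integers `α` of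
Hausdorff dimension at most `(1 - c) / σ`: for all `j`, all large `T` and all `1 ≤ t ≤ T` with `|t - α|_p ≤ T ^ (-σ)` for which the
fibre at `1 / t` is a polarized Hodge structure, all its endomorphisms commute with the identity component of the Galois
group, and it is not CM, if the monodromy group is infinite. -/
theorem result (e ρ n : ℕ) (T : Polynomial ℤ) (A : Fin ρ → Fin ρ → Polynomial ℤ) (h : Fin ρ → PowerSeries ℚ)
    (hG : GFamily T A h) :
    ∃ c : ℝ, 0 < c ∧ c ≤ 1 ∧ ∀ P : ℕ → Fin n → Fin n → MvPolynomial (Option (Fin ρ)) ℂ,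
      (∀ j a b, (P j a b).totalDegree ≤ e) → ∀ V : ∀ j, Variation h (P j), ∀ (p : ℕ) [Fact p.Prime] (σ : ℝ), 0 < σ →
      ∃ E : Set ℤ_[p], dimH E ≤ ENNReal.ofReal ((1 - c) / σ) ∧ ∀ α ∉ E, ∀ j, ∃ T₀ : ℝ, ∀ T ≥ T₀, ∀ t : ℕ, 1 ≤ t →
        (t : ℝ) ≤ T → ‖(t : ℤ_[p]) - α‖ ≤ T ^ (-σ) → IsFibre (V j) t →
          ¬ Moved (V j) t ∧ (Infinite (V j).monodromy → ¬ IsCM (V j) t) := by
  obtain ⟨c, C, hc, hc1, hC, hcount⟩ := count e ρ n T A h hG
  refine ⟨c, hc, hc1, fun P hP V p _ σ hσ => ?_⟩
  obtain ⟨E, hE1, hE2⟩ := Pool.Agent.H223.PS.padic_nat' p (fun j => Bad (V j)) (s := 1 - c) (by linarith)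
    (fun j ε hε => ⟨C, fun X hX => ⟨(hcount (P j) (hP j) (V j) X hX).1,
      (hcount (P j) (hP j) (V j) X hX).2.trans (mul_le_mul_of_nonneg_left
        (Real.rpow_le_rpow_of_exponent_le (by exact_mod_cast hX) (by linarith)) hC)⟩⟩) hσ
  refine ⟨E, hE1, fun α hα j => ?_⟩
  obtain ⟨T₀, hT₀⟩ := hE2 α hα j
  refine ⟨T₀, fun T hT t ht1 htT htα hf => ?_⟩
  have h1 := hT₀ T hT t htT htα
  exact ⟨fun h2 => h1 ⟨ht1, hf, Or.inl h2⟩, fun hinf h2 => h1 ⟨ht1, hf, Or.inr ⟨hinf, h2⟩⟩⟩

end Pool.Agent.Results.MP_2794d1_ag.PadicClassesNotCM
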